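import Pool.Agent.FU3.Stmts
import Pool.Agent.Helper3_FU2.Fou
import Pool.Agent.Helper9_FU2.TAL
import Pool.Agent.Helper42_FU2.OBL

/-!
# FU3 row DEG: multiplication with a Boolean function of small Fourier degree
-/

set_option autoImplicit false

open Finset

namespace Pool.Agent.FU3.H69

open Pool.Agent.FUR Pool.Agent.FU2 Pool.Agent.FU3

variable {N : ℕ}

/-- inner product -/
noncomputable def ip (u v : RF N) : ℝ := (∑ x, u x * v x) / 2 ^ N

/-- the part of level `m` -/
noncomputable def lp (m : ℕ) (u : RF N) : RF N := fun x =>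
  ∑ S ∈ powersetCard m (univ : Finset (Fin N)), fc u S * ch S x

theorem ip_lp (m : ℕ) (u v : RF N) :
    ip (lp m u) v = ∑ S ∈ powersetCard m (univ : Finset (Fin N)), fc u S * fc v S := by
  unfold ip lp
  have h1 : ∀ S : Finset (Fin N), fc u S * fc v S = (∑ x, fc u S * ch S x * v x) / 2 ^ N := by
    intro S
    conv_lhs => rw [fc.eq_def v]
    rw [mul_div_assoc', mul_sum]
    congr 1
    refine sum_congr rfl fun x _ => ?_
    ring
  rw [sum_congr rfl fun S _ => h1 S, ← sum_div, sum_comm]
  congr 1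
  refine sum_congr rfl fun x _ => ?_
  rw [sum_mul]

theorem fc_lp (m : ℕ) (u : RF N) (S : Finset (Fin N)) :
    fc (lp m u) S = if S.card = m then fc u S else 0 := by
  have h0 : (2 : ℝ) ^ N ≠ 0 := by positivity
  have h1 : fc (lp m u) S = ∑ U ∈ powersetCard m (univ : Finset (Fin N)),
      fc u U * ((∑ x, ch (symmDiff U S) x) / 2 ^ N) := by
    conv_lhs => rw [fc.eq_def]
    unfold lp
    have h2 : ∀ U : Finset (Fin N), fc u U * ((∑ x, ch (symmDiff U S) x) / 2 ^ N) =
        (∑ x, fc u U * ch U x * ch S x) / 2 ^ N := by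
      intro U
      rw [mul_div_assoc', mul_sum]
      congr 1
      refine sum_congr rfl fun x _ => ?_
      rw [← FU2.H3.ch_mul]
      ring
    rw [sum_congr rfl fun U _ => h2 U, ← sum_div, sum_comm]
    congr 1
    refine sum_congr rfl fun x _ => ?_
    rw [sum_mul]
  have h2 : ∀ U : Finset (Fin N), fc u U * ((∑ x, ch (symmDiff U S) x) / 2 ^ N) =
      if U = S then fc u S else 0 := by
    intro U
    by_cases hU : U = S
    · rw [if_pos hU, hU, symmDiff_self]
      have h3 : ∑ x : Fin N → Bool, ch (⊥ : Finset (Fin N)) x = 2 ^ N := by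
        have h4 : ∀ x : Fin N → Bool, ch (⊥ : Finset (Fin N)) x = 1 := fun x => by
          unfold ch
          exact prod_empty
        rw [sum_congr rfl fun x _ => h4 x, sum_const, nsmul_eq_mul, mul_one, card_univ]
        simp
      rw [h3, div_self h0, mul_one]
    · rw [if_neg hU, FU2.H09.sum_ch, zero_div, mul_zero]
      intro h
      exact hU (symmDiff_eq_bot.1 h)
  rw [h1, sum_congr rfl fun U _ => h2 U, sum_ite_eq']
  simp only [mem_powersetCard, subset_univ, true_and]

theorem sum_levels (F : Finset (Fin N) → ℝ) :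
    ∑ S : Finset (Fin N), F S =
      ∑ m ∈ range (N + 1), ∑ S ∈ powersetCard m (univ : Finset (Fin N)), F S := by
  have h := sum_powerset (univ : Finset (Fin N)) F
  rw [powerset_univ, card_univ, Fintype.card_fin] at h
  exact h

theorem sum_lp (hP : PRSStmt) (u : RF N) (x : Fin N → Bool) :
    u x = ∑ m ∈ range (N + 1), lp m u x := by
  rw [(hP N u).2 x, sum_levels]
  rfl

theorem ip_sum_right (u v : RF N) (s : Finset ℕ) (w : ℕ → RF N)
    (h : ∀ x, v x = ∑ l ∈ s, w l x) : ip u v = ∑ l ∈ s, ip u (w l) := by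
  unfold ip
  rw [← sum_div, sum_comm]
  congr 1
  refine sum_congr rfl fun x _ => ?_
  rw [h x, mul_sum]

theorem ip_comm (u v : RF N) : ip u v = ip v u := by
  unfold ip
  congr 1
  exact sum_congr rfl fun x _ => mul_comm _ _

theorem exp_bd (a b : ℝ) (h : |a - b| ≤ 1 / 10) :
    |Real.exp (2 * a) - Real.exp (2 * b)| ≤ 5 / 2 * |a - b| * Real.exp (a + b) := by
  have key : ∀ a b : ℝ, b ≤ a → a - b ≤ 1 / 10 →
      |Real.exp (2 * a) - Real.exp (2 * b)| ≤ 5 / 2 * (a - b) * Real.exp (a + b) := by
    intro a b hab h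
    have e1 : Real.exp (2 * a) = Real.exp (a + b) * Real.exp (a - b) := by
      rw [← Real.exp_add]
      congr 1
      ring
    have e2 : Real.exp (2 * b) = Real.exp (a + b) * Real.exp (-(a - b)) := by
      rw [← Real.exp_add]
      congr 1
      ring
    have h1 : Real.exp (a - b) ≤ 1 + (a - b) + (a - b) ^ 2 := by
      have := Real.abs_exp_sub_one_sub_id_le (x := a - b) (by rw [abs_of_nonneg] <;> linarith)
      have h2 := (abs_le.1 this).2
      linarith
    have h2 : 1 - (a - b) ≤ Real.exp (-(a - b)) := by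
      have := Real.add_one_le_exp (-(a - b))
      linarith
    have h3 : 0 < Real.exp (a + b) := Real.exp_pos _
    rw [abs_of_nonneg (by
      rw [sub_nonneg]
      exact Real.exp_le_exp.2 (by linarith)), e1, e2, ← mul_sub, mul_comm]
    apply mul_le_mul_of_nonneg_right _ h3.le
    nlinarith
  rcases le_total b a with hab | hab
  · rw [abs_of_nonneg (by linarith : 0 ≤ a - b)] at h ⊢
    exact key a b hab h
  · rw [abs_sub_comm (Real.exp (2 * a)), abs_sub_comm a b,
      abs_of_nonneg (by linarith : 0 ≤ b - a), add_comm a b]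
    rw [abs_sub_comm, abs_of_nonneg (by linarith : 0 ≤ b - a)] at h
    exact key b a hab h

/-- the kernel -/
noncomputable def W (T m l : ℕ) : ℝ := if |(m : ℝ) - l| ≤ T then |(m : ℝ) - l| else 0

theorem W_nonneg (T m l : ℕ) : 0 ≤ W T m l := by
  unfold W
  split_ifs
  · exact abs_nonneg _
  · exact le_rfl

theorem W_comm (T m l : ℕ) : W T m l = W T l m := by
  unfold W
  rw [abs_sub_comm]

theorem W_sum (T m M : ℕ) : ∑ l ∈ range M, W T m l ≤ 2 * (T : ℝ) ^ 2 := by
  classical
  rw [← sum_filter_ne_zero]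
  have h1 : ∀ l ∈ (range M).filter (fun l => W T m l ≠ 0), W T m l ≤ (T : ℝ) := by
    intro l _
    unfold W
    split_ifs with h
    · exact h
    · exact Nat.cast_nonneg _
  refine (sum_le_card_nsmul _ _ _ h1).trans ?_
  rw [nsmul_eq_mul]
  have h2 : (range M).filter (fun l => W T m l ≠ 0) ⊆ (Icc (m - T) (m + T)).erase m := by
    intro l hl
    have h3 := (mem_filter.1 hl).2
    unfold W at h3
    split_ifs at h3 with h4
    · rw [mem_erase, mem_Icc]
      have h5 : l ≠ m := by
        rintro rfl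
        exact h3 (by simp)
      have h6 := abs_le.1 h4
      have h7 : (l : ℝ) ≤ m + T := by linarith
      have h8 : (m : ℝ) ≤ l + T := by linarith
      have h9 : l ≤ m + T := by exact_mod_cast h7
      have h10 : m ≤ l + T := by exact_mod_cast h8
      exact ⟨h5, by omega, h9⟩
    · exact absurd rfl h3
  have h3 : ((range M).filter (fun l => W T m l ≠ 0)).card ≤ 2 * T := by
    refine (card_le_card h2).trans ?_
    rw [card_erase_of_mem (mem_Icc.2 ⟨by omega, by omega⟩), Nat.card_Icc]
    omega
  have h4 : (((range M).filter (fun l => W T m l ≠ 0)).card : ℝ) ≤ 2 * T := by exact_mod_cast h3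
  calc (((range M).filter (fun l => W T m l ≠ 0)).card : ℝ) * T ≤ 2 * T * T := by gcongr
    _ = 2 * (T : ℝ) ^ 2 := by ring

theorem wn_eq (t : ℝ) (u : RF N) :
    wn t u = ∑ m ∈ range (N + 1), t ^ (2 * m) * ip (lp m u) (lp m u) := by
  unfold wn
  rw [sum_levels]
  refine sum_congr rfl fun m _ => ?_
  rw [ip_lp, mul_sum]
  refine sum_congr rfl fun S hS => ?_
  have hc := (mem_powersetCard.1 hS).2
  rw [fc_lp, if_pos hc, hc]
  ring

theorem bf_eq (t : ℝ) (u v : RF N) :
    FU2.H42.bf t u v = ∑ m ∈ range (N + 1), t ^ (2 * m) * ip (lp m u) v := by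
  unfold FU2.H42.bf
  rw [sum_levels]
  refine sum_congr rfl fun m _ => ?_
  rw [ip_lp, mul_sum]
  refine sum_congr rfl fun S hS => ?_
  rw [(mem_powersetCard.1 hS).2]

/-- the coefficients of `1 - ind f` -/
theorem fc_compl {T : ℕ} {f : BF N} (hf : Dg T f) (S : Finset (Fin N))
    (hS : fc (fun x => 1 - ind f x) S ≠ 0) : S.card ≤ T := by
  by_contra hcon
  apply hS
  have h1 : fc (fun x => 1 - ind f x) S =
      fc (fun _ : Fin N → Bool => (1 : ℝ)) S - fc (ind f) S := by
    unfold fc
    rw [← sub_div, ← sum_sub_distrib]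
    congr 1
    refine sum_congr rfl fun x _ => ?_
    ring
  have h2 : fc (ind f) S = 0 := by
    by_contra h
    exact hcon (hf S h)
  have h3 : fc (fun _ : Fin N → Bool => (1 : ℝ)) S = 0 := by
    unfold fc
    have h4 : ∑ x : Fin N → Bool, (1 : ℝ) * ch S x = 0 := by
      simp only [one_mul]
      apply FU2.H09.sum_ch
      rintro rfl
      exact hcon (by simp)
    rw [h4, zero_div]
  rw [h1, h2, h3, sub_zero]

theorem deg (hP : PRSStmt) : DEGStmt := by
  intro N T f κ g hT hκ hκT hf
  set t : ℝ := Real.exp κ with ht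
  have t0 : 0 < t := Real.exp_pos κ
  set h : RF N := fun x => ind f x * g x with hh
  set k : RF N := fun x => (1 - ind f x) * g x with hk
  have hg : wn t g = wn t h + wn t k + 2 * FU2.H42.bf t h k := by
    have h1 : g = fun x => 1 * h x + 1 * k x := by
      funext x
      simp only [hh, hk]
      ring
    have h2 := FU2.H42.wn_lin t 1 1 h k
    rw [← h1] at h2
    rw [h2]
    ring
  -- the matrix
  set Q : ℕ → ℕ → ℝ := fun m l => ip (lp m h) (fun x => (1 - ind f x) * lp l k x) with hQ
  have T0 : (0 : ℝ) < T := by exact_mod_cast (by omega : 0 < T)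
  have hQ0 : ∀ m l : ℕ, ¬ |(m : ℝ) - l| ≤ T → Q m l = 0 := by
    intro m l hml
    simp only [hQ]
    rw [ip_lp]
    refine sum_eq_zero fun S hS => ?_
    have hc := (mem_powersetCard.1 hS).2
    rw [FU2.H3.fc_mul hP (fun x => 1 - ind f x) (lp l k) S]
    have h1 : ∑ U : Finset (Fin N), fc (fun x => 1 - ind f x) U * fc (lp l k) (symmDiff U S) = 0 := by
      refine sum_eq_zero fun U _ => ?_
      by_contra hne
      have h2 := fc_compl hf U (left_ne_zero_of_mul hne)
      have h3 := right_ne_zero_of_mul hne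
      rw [fc_lp] at h3
      have h4 : (symmDiff U S).card = l := by
        by_contra h5
        exact h3 (if_neg h5)
      apply hml
      have h6 : S.card ≤ U.card + (symmDiff U S).card := by
        have h7 : S ⊆ U ∪ symmDiff U S := by
          intro v hv
          rw [mem_union, mem_symmDiff]
          by_cases hU : v ∈ U
          · exact Or.inl hU
          · exact Or.inr (Or.inr ⟨hv, hU⟩)
        exact (card_le_card h7).trans (card_union_le _ _)
      have h8 : (symmDiff U S).card ≤ U.card + S.card := by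
        have h7 : symmDiff U S ⊆ U ∪ S := by
          intro v hv
          rw [mem_symmDiff] at hv
          rw [mem_union]
          rcases hv with hv | hv
          · exact Or.inl hv.1
          · exact Or.inr hv.1
        exact (card_le_card h7).trans (card_union_le _ _)
      rw [hc, h4] at h6
      rw [hc, h4] at h8
      have h9 : (m : ℝ) ≤ T + l := by exact_mod_cast (by omega : m ≤ T + l)
      have h10 : (l : ℝ) ≤ T + m := by exact_mod_cast (by omega : l ≤ T + m)
      rw [abs_le]
      constructor <;> linarith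
    rw [h1, mul_zero]
  have hQ1 : ∀ m, ip (lp m h) k = ∑ l ∈ range (N + 1), Q m l := by
    intro m
    apply ip_sum_right
    intro x
    rw [← mul_sum, ← sum_lp hP k x]
    simp only [hk]
    have h3 := FU2.H42.ind_idem f x
    linear_combination (-g x) * h3
  have hQ2 : ∀ l, ∑ m ∈ range (N + 1), Q m l = 0 := by
    intro l
    have h1 : ip (fun x => (1 - ind f x) * lp l k x) h = ∑ m ∈ range (N + 1),
        ip (fun x => (1 - ind f x) * lp l k x) (lp m h) := by
      apply ip_sum_right
      intro x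
      exact sum_lp hP h x
    have h2 : ip (fun x => (1 - ind f x) * lp l k x) h = 0 := by
      unfold ip
      rw [sum_eq_zero, zero_div]
      intro x _
      simp only [hh]
      have h3 := FU2.H42.ind_idem f x
      linear_combination (-(lp l k x) * g x) * h3
    rw [h2] at h1
    rw [h1]
    exact sum_congr rfl fun m _ => ip_comm _ _
  have hB : FU2.H42.bf t h k =
      ∑ m ∈ range (N + 1), ∑ l ∈ range (N + 1), (t ^ (2 * m) - t ^ (2 * l)) * Q m l := by
    have h1 : ∑ m ∈ range (N + 1), ∑ l ∈ range (N + 1), t ^ (2 * l) * Q m l = 0 := by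
      rw [sum_comm]
      refine sum_eq_zero fun l _ => ?_
      rw [← mul_sum, hQ2, mul_zero]
    rw [bf_eq]
    have h2 : ∀ m, t ^ (2 * m) * ip (lp m h) k = ∑ l ∈ range (N + 1), t ^ (2 * m) * Q m l := by
      intro m
      rw [hQ1, mul_sum]
    rw [sum_congr rfl fun m _ => h2 m]
    have h3 : ∑ m ∈ range (N + 1), ∑ l ∈ range (N + 1), (t ^ (2 * m) - t ^ (2 * l)) * Q m l =
        ∑ m ∈ range (N + 1), ∑ l ∈ range (N + 1), t ^ (2 * m) * Q m l -
          ∑ m ∈ range (N + 1), ∑ l ∈ range (N + 1), t ^ (2 * l) * Q m l := by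
      rw [← sum_sub_distrib]
      refine sum_congr rfl fun m _ => ?_
      rw [← sum_sub_distrib]
      refine sum_congr rfl fun l _ => ?_
      ring
    rw [h3, h1, sub_zero]
  -- the bound for one entry
  set δ : ℝ := 5 * (κ * (T : ℝ) ^ 2) with hδ
  have hκT2 : κ * (T : ℝ) ^ 2 ≤ 1 / 10 := by
    have h1 : (κ * (T : ℝ) ^ 2) ^ 2 ≤ (1 / 10) ^ 2 := by
      have h2 : (κ * (T : ℝ) ^ 2) ^ 2 = κ ^ 2 * (T : ℝ) ^ 4 := by ring
      rw [h2]
      norm_num
      linarith
    exact le_of_sq_le_sq h1 (by norm_num)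
  have δ0 : 0 < δ := by positivity
  set A : ℕ → ℝ := fun m => t ^ (2 * m) * ip (lp m h) (lp m h) with hA
  set B : ℕ → ℝ := fun l => t ^ (2 * l) * ip (lp l k) (lp l k) with hBd
  have ip0 : ∀ u : RF N, 0 ≤ ip u u := by
    intro u
    unfold ip
    apply div_nonneg _ (by positivity)
    exact sum_nonneg fun x _ => mul_self_nonneg _
  have A0 : ∀ m, 0 ≤ A m := fun m => mul_nonneg (by positivity) (ip0 _)
  have B0 : ∀ m, 0 ≤ B m := fun m => mul_nonneg (by positivity) (ip0 _)
  have hent : ∀ m l : ℕ, 2 * |(t ^ (2 * m) - t ^ (2 * l)) * Q m l| ≤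
      5 / 2 * κ * (W T m l * (δ * A m) + W T m l * (B l / δ)) := by
    intro m l
    by_cases hml : |(m : ℝ) - l| ≤ T
    · have h1 : t ^ (m + l) * |Q m l| ≤ (δ * A m + B l / δ) / 2 := by
        have h2 : t ^ (m + l) * |Q m l| ≤ (∑ x : Fin N → Bool,
            (δ * (t ^ (2 * m) * (lp m h x * lp m h x)) +
              (t ^ (2 * l) * (lp l k x * lp l k x)) / δ) / 2) / 2 ^ N := by
          simp only [hQ, ip]
          rw [abs_div, abs_of_pos (by positivity : (0 : ℝ) < 2 ^ N), mul_div_assoc']
          apply div_le_div_of_nonneg_right _ (by positivity)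
          refine (mul_le_mul_of_nonneg_left (abs_sum_le_sum_abs _ _) (by positivity)).trans ?_
          rw [mul_sum]
          refine sum_le_sum fun x _ => ?_
          have h3 : |1 - ind f x| ≤ 1 := by
            unfold ind
            split_ifs <;> norm_num
          rw [abs_mul, abs_mul]
          have h4 : t ^ (m + l) * (|lp m h x| * (|1 - ind f x| * |lp l k x|)) ≤
              (t ^ m * |lp m h x|) * (t ^ l * |lp l k x|) := by
            have h5 : |1 - ind f x| * |lp l k x| ≤ |lp l k x| :=
              mul_le_of_le_one_left (abs_nonneg _) h3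
            calc t ^ (m + l) * (|lp m h x| * (|1 - ind f x| * |lp l k x|)) ≤
                t ^ (m + l) * (|lp m h x| * |lp l k x|) := by gcongr
              _ = (t ^ m * |lp m h x|) * (t ^ l * |lp l k x|) := by rw [pow_add]; ring
          refine h4.trans ?_
          have h6 : (t ^ m * |lp m h x|) ^ 2 = t ^ (2 * m) * (lp m h x * lp m h x) := by
            rw [mul_pow, sq_abs, ← pow_mul, mul_comm m 2, pow_two (lp m h x)]
          have h7 : (t ^ l * |lp l k x|) ^ 2 = t ^ (2 * l) * (lp l k x * lp l k x) := by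
            rw [mul_pow, sq_abs, ← pow_mul, mul_comm l 2, pow_two (lp l k x)]
          rw [← h6, ← h7]
          set a := t ^ m * |lp m h x|
          set b := t ^ l * |lp l k x|
          have h8 : (δ * a ^ 2 + b ^ 2 / δ) / 2 - a * b = (δ * a - b) ^ 2 / (2 * δ) := by
            field_simp
            ring
          have h9 : 0 ≤ (δ * a - b) ^ 2 / (2 * δ) := by positivity
          linarith
        refine h2.trans (le_of_eq ?_)
        simp only [hA, hBd, ip]
        rw [← sum_div, sum_add_distrib, ← mul_sum, ← sum_div, ← mul_sum, ← mul_sum]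
        ring
      have h2 : |t ^ (2 * m) - t ^ (2 * l)| ≤ 5 / 2 * κ * |(m : ℝ) - l| * t ^ (m + l) := by
        have h3 := exp_bd (κ * m) (κ * l) (by
          rw [← mul_sub, abs_mul, abs_of_pos hκ]
          calc κ * |(m : ℝ) - l| ≤ κ * T := by gcongr
            _ ≤ κ * (T : ℝ) ^ 2 := by
                gcongr
                have : (1 : ℝ) ≤ T := by exact_mod_cast hT
                nlinarith
            _ ≤ 1 / 10 := hκT2)
        have e1 : Real.exp (2 * (κ * m)) = t ^ (2 * m) := by
          rw [ht, ← Real.exp_nat_mul]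
          congr 1
          push_cast
          ring
        have e2 : Real.exp (2 * (κ * l)) = t ^ (2 * l) := by
          rw [ht, ← Real.exp_nat_mul]
          congr 1
          push_cast
          ring
        have e3 : Real.exp (κ * m + κ * l) = t ^ (m + l) := by
          rw [ht, ← Real.exp_nat_mul]
          congr 1
          push_cast
          ring
        rw [e1, e2, e3, ← mul_sub, abs_mul, abs_of_pos hκ] at h3
        calc _ ≤ _ := h3
          _ = _ := by ring
      have hW : W T m l = |(m : ℝ) - l| := by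
        unfold W
        rw [if_pos hml]
      rw [hW, abs_mul]
      calc 2 * (|t ^ (2 * m) - t ^ (2 * l)| * |Q m l|) ≤
          2 * ((5 / 2 * κ * |(m : ℝ) - l| * t ^ (m + l)) * |Q m l|) := by gcongr
        _ = 2 * (5 / 2 * κ * |(m : ℝ) - l|) * (t ^ (m + l) * |Q m l|) := by ring
        _ ≤ 2 * (5 / 2 * κ * |(m : ℝ) - l|) * ((δ * A m + B l / δ) / 2) := by gcongr
        _ = _ := by ring
    · rw [hQ0 m l hml, mul_zero, abs_zero, mul_zero]
      have h1 := W_nonneg T m l
      have h2 := A0 m
      have h3 := B0 l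
      positivity
  -- the sum
  have hsum : 2 * |FU2.H42.bf t h k| ≤ δ ^ 2 * wn t h + wn t k := by
    have h1 : 2 * |FU2.H42.bf t h k| ≤ ∑ m ∈ range (N + 1), ∑ l ∈ range (N + 1),
        5 / 2 * κ * (W T m l * (δ * A m) + W T m l * (B l / δ)) := by
      rw [hB]
      refine (mul_le_mul_of_nonneg_left (abs_sum_le_sum_abs _ _) (by norm_num)).trans ?_
      rw [mul_sum]
      refine sum_le_sum fun m _ => ?_
      refine (mul_le_mul_of_nonneg_left (abs_sum_le_sum_abs _ _) (by norm_num)).trans ?_
      rw [mul_sum]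
      exact sum_le_sum fun l _ => hent m l
    have h2 : ∑ m ∈ range (N + 1), ∑ l ∈ range (N + 1),
        5 / 2 * κ * (W T m l * (δ * A m) + W T m l * (B l / δ)) =
        5 / 2 * κ * (∑ m ∈ range (N + 1), (∑ l ∈ range (N + 1), W T m l) * (δ * A m) +
          ∑ l ∈ range (N + 1), (∑ m ∈ range (N + 1), W T m l) * (B l / δ)) := by
      have h3 : ∑ l ∈ range (N + 1), (∑ m ∈ range (N + 1), W T m l) * (B l / δ) =
          ∑ m ∈ range (N + 1), ∑ l ∈ range (N + 1), W T m l * (B l / δ) := by
        rw [sum_comm]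
        exact sum_congr rfl fun l _ => sum_mul _ _ _
      rw [h3, ← sum_add_distrib, mul_sum]
      refine sum_congr rfl fun m _ => ?_
      rw [sum_mul, ← sum_add_distrib, mul_sum]
    have h4 : ∑ m ∈ range (N + 1), (∑ l ∈ range (N + 1), W T m l) * (δ * A m) ≤
        2 * (T : ℝ) ^ 2 * (δ * wn t h) := by
      rw [wn_eq t h, mul_sum, mul_sum]
      refine sum_le_sum fun m _ => ?_
      exact mul_le_mul_of_nonneg_right (W_sum T m _) (mul_nonneg δ0.le (A0 m))
    have h5 : ∑ l ∈ range (N + 1), (∑ m ∈ range (N + 1), W T m l) * (B l / δ) ≤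
        2 * (T : ℝ) ^ 2 * (wn t k / δ) := by
      rw [wn_eq t k, sum_div, mul_sum]
      refine sum_le_sum fun l _ => ?_
      apply mul_le_mul_of_nonneg_right _ (div_nonneg (B0 l) δ0.le)
      rw [sum_congr rfl fun m _ => W_comm T m l]
      exact W_sum T l _
    rw [h2] at h1
    refine h1.trans ?_
    calc 5 / 2 * κ * (∑ m ∈ range (N + 1), (∑ l ∈ range (N + 1), W T m l) * (δ * A m) +
          ∑ l ∈ range (N + 1), (∑ m ∈ range (N + 1), W T m l) * (B l / δ)) ≤
        5 / 2 * κ * (2 * (T : ℝ) ^ 2 * (δ * wn t h) + 2 * (T : ℝ) ^ 2 * (wn t k / δ)) := by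
          gcongr
      _ = δ * (δ * wn t h + wn t k / δ) := by
          rw [hδ]
          ring
      _ = δ ^ 2 * wn t h + wn t k := by
          field_simp
  -- conclusion
  have hh0 := FU2.H42.wn_nonneg t0 h
  have hlow : (1 - δ ^ 2) * wn t h ≤ wn t g := by
    rw [hg]
    have h1 := neg_abs_le (FU2.H42.bf t h k)
    linarith
  have hδ2 : δ ^ 2 = 25 * (κ ^ 2 * (T : ℝ) ^ 4) := by
    rw [hδ]
    ring
  set X : ℝ := κ ^ 2 * (T : ℝ) ^ 4 with hX
  have X0 : 0 ≤ X := by positivity
  have hexp : 1 + 50 * X ≤ Real.exp (50 * X) := by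
    have := Real.add_one_le_exp (50 * X)
    linarith
  rw [hδ2] at hlow
  have h1 : wn t h ≤ (1 + 50 * X) * ((1 - 25 * X) * wn t h) := by
    have h2 : 1 ≤ (1 + 50 * X) * (1 - 25 * X) := by nlinarith
    calc wn t h = 1 * wn t h := (one_mul _).symm
      _ ≤ ((1 + 50 * X) * (1 - 25 * X)) * wn t h := by gcongr
      _ = _ := by ring
  calc wn t h ≤ (1 + 50 * X) * ((1 - 25 * X) * wn t h) := h1
    _ ≤ (1 + 50 * X) * wn t g := by gcongr
    _ ≤ Real.exp (50 * X) * wn t g :=
        mul_le_mul_of_nonneg_right hexp (FU2.H42.wn_nonneg t0 g)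

end Pool.Agent.FU3.H69
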